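import Pool.Agent.W2helper16.PP.Count

/-!
The bound for the number of parameters.
-/

set_option autoImplicit false

namespace Pool.Agent.W2helper16.PP

open Finset Pool.Agent.H785R2.ABC

lemma card_G (N : ℕ) (R B : ℝ) (hB : ∀ m : ℕ, m ≤ 4 * N ^ 2 → (m.divisors.card : ℝ) ≤ B) (_hB0 : 0 ≤ B) :
    ((G N R).card : ℝ) ≤ 3 * ((V N R).card * B) := by
  have key : ∀ (F : ℕ → ℕ) (g : ℕ → ℕ → ℕ × ℕ), (∀ v ∈ V N R, F v ≤ 4 * N ^ 2) →
      (((V N R).biUnion (fun v => (F v).divisors.image (g v))).card : ℝ) ≤ (V N R).card * B := by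
    intro F g hF
    calc (((V N R).biUnion (fun v => (F v).divisors.image (g v))).card : ℝ)
        ≤ ((∑ v ∈ V N R, ((F v).divisors.image (g v)).card : ℕ) : ℝ) := by
          exact_mod_cast card_biUnion_le
      _ = ∑ v ∈ V N R, (((F v).divisors.image (g v)).card : ℝ) := by push_cast; rfl
      _ ≤ ∑ v ∈ V N R, B := by
          apply Finset.sum_le_sum
          intro v hv
          refine le_trans ?_ (hB _ (hF v hv))
          exact_mod_cast card_image_le
      _ = (V N R).card * B := by rw [sum_const, nsmul_eq_mul]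
  have hv : ∀ v ∈ V N R, 1 ≤ v ∧ v ≤ N := by
    intro v hv
    rw [V, mem_filter, mem_Icc] at hv
    exact hv.1
  have k1 := key (fun v => 4 * (v - 1)) f1 (fun v h => by
    have := hv v h
    have h2 : v ≤ N ^ 2 := le_trans this.2 (Nat.le_self_pow (by norm_num) N)
    omega)
  have k2 := key (fun v => 4 * (v - 2)) f2 (fun v h => by
    have := hv v h
    have h2 : v ≤ N ^ 2 := le_trans this.2 (Nat.le_self_pow (by norm_num) N)
    omega)
  have k3 := key (fun v => v ^ 2 - 1) f3 (fun v h => by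
    have := hv v h
    have h2 : v ^ 2 ≤ N ^ 2 := Nat.pow_le_pow_left this.2 2
    omega)
  have hu : (G N R).card ≤ ((V N R).biUnion (fun v => (4 * (v - 1)).divisors.image (f1 v))).card +
      (((V N R).biUnion (fun v => (4 * (v - 2)).divisors.image (f2 v))).card +
       ((V N R).biUnion (fun v => (v ^ 2 - 1).divisors.image (f3 v))).card) := by
    unfold G
    refine le_trans (card_union_le _ _) ?_
    exact Nat.add_le_add_left (card_union_le _ _) _
  have hu' : ((G N R).card : ℝ) ≤ ((V N R).biUnion (fun v => (4 * (v - 1)).divisors.image (f1 v))).card +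
      (((V N R).biUnion (fun v => (4 * (v - 2)).divisors.image (f2 v))).card +
       ((V N R).biUnion (fun v => (v ^ 2 - 1).divisors.image (f3 v))).card) := by exact_mod_cast hu
  linarith

theorem bound (ε : ℝ) (hε : 0 < ε) : ∃ K : ℝ, 0 < K ∧ ∀ N : ℕ, ∀ Y : ℝ, 0 ≤ Y →
    ((G N (6 * Y)).card : ℝ) ≤ K * Y * (N : ℝ) ^ ε := by
  obtain ⟨D, hD, hV⟩ := stmtA4_of (stmtA3_of stmtA2) (ε / 2) (by positivity)
  obtain ⟨E, hE, hd⟩ := Pool.Agent.H510R2.divisor_bound (ε / 4) (by positivity)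
  refine ⟨18 * D * (E * (4 : ℝ) ^ (ε / 4)), by positivity, fun N Y hY => ?_⟩
  rcases Nat.eq_zero_or_pos N with hN | hN
  · subst hN
    have h0 : G 0 (6 * Y) = ∅ := by
      simp [G, V]
    rw [h0]
    simp only [card_empty, CharP.cast_eq_zero]
    positivity
  have hN1 : (1 : ℝ) ≤ N := by exact_mod_cast hN
  have hB : ∀ m : ℕ, m ≤ 4 * N ^ 2 → (m.divisors.card : ℝ) ≤ E * (4 : ℝ) ^ (ε / 4) * (N : ℝ) ^ (ε / 2) := by
    intro m hm
    have e1 : ((4 * N ^ 2 : ℕ) : ℝ) ^ (ε / 4) = (4 : ℝ) ^ (ε / 4) * (N : ℝ) ^ (ε / 2) := by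
      push_cast
      rw [Real.mul_rpow (by norm_num) (by positivity), ← Real.rpow_natCast (N : ℝ) 2,
        ← Real.rpow_mul (by positivity)]
      congr 2
      push_cast; ring
    rcases Nat.eq_zero_or_pos m with h0 | h0
    · subst h0
      simp only [Nat.divisors_zero, card_empty, CharP.cast_eq_zero]
      positivity
    · refine le_trans (hd m h0) ?_
      rw [mul_assoc, ← e1]
      apply mul_le_mul_of_nonneg_left _ hE.le
      apply Real.rpow_le_rpow (by positivity) _ (by positivity)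
      exact_mod_cast hm
  have h1 := card_G N (6 * Y) _ hB (by positivity)
  have h2 : ((V N (6 * Y)).card : ℝ) ≤ D * (N : ℝ) ^ (ε / 2) * (6 * Y) := hV N hN (6 * Y) (by positivity)
  calc ((G N (6 * Y)).card : ℝ)
      ≤ 3 * ((V N (6 * Y)).card * (E * (4 : ℝ) ^ (ε / 4) * (N : ℝ) ^ (ε / 2))) := h1
    _ ≤ 3 * ((D * (N : ℝ) ^ (ε / 2) * (6 * Y)) * (E * (4 : ℝ) ^ (ε / 4) * (N : ℝ) ^ (ε / 2))) := by
        apply mul_le_mul_of_nonneg_left _ (by norm_num)
        apply mul_le_mul_of_nonneg_right h2 (by positivity)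
    _ = 18 * D * (E * (4 : ℝ) ^ (ε / 4)) * Y * ((N : ℝ) ^ (ε / 2) * (N : ℝ) ^ (ε / 2)) := by ring
    _ = 18 * D * (E * (4 : ℝ) ^ (ε / 4)) * Y * (N : ℝ) ^ ε := by
        rw [← Real.rpow_add (by positivity)]
        congr 2
        ring

end Pool.Agent.W2helper16.PP
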