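import Pool.Agent.W2helper16.PP.Sol
import Pool.Agent.H785R2.ABC.A345
import Pool.Agent.H785R2.ABC.A12
import Pool.Agent.H510R2.Div

/-!
Counting the parameters of perfect 2-error-correcting codes by radicals.
-/

set_option autoImplicit false

namespace Pool.Agent.W2helper16.PP

open Finset Pool.Agent.TH500.PC Pool.Agent.H785R2.ABC

/-- product of the prime divisors `≥ 5` -/
def rad5 (v : ℕ) : ℕ := ∏ p ∈ v.primeFactors.filter (fun p => 5 ≤ p), p

lemma rad_le (v : ℕ) : rad v ≤ 6 * rad5 v := by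
  unfold rad rad5
  rw [← Finset.prod_filter_mul_prod_filter_not v.primeFactors (fun p => 5 ≤ p), mul_comm]
  apply Nat.mul_le_mul_right
  calc ∏ p ∈ v.primeFactors.filter (fun p => ¬ 5 ≤ p), p ≤ ∏ p ∈ ({2, 3} : Finset ℕ), p := by
        apply Finset.prod_le_prod_of_subset_of_one_le'
        · intro p hp
          rw [mem_filter] at hp
          have h1 := Nat.prime_of_mem_primeFactors hp.1
          have h2 : p < 5 := by omega
          interval_cases p
          · exact absurd h1 (by norm_num)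
          · exact absurd h1 (by norm_num)
          · simp
          · simp
          · exact absurd h1 (by norm_num)
        · intro p hp _
          simp only [mem_insert, mem_singleton] at hp
          rcases hp with rfl | rfl <;> norm_num
    _ = 6 := by decide

lemma rad5_prod_le {q x y w : ℕ} (hq : q ≠ 0)
    (hx : ∀ p : ℕ, p.Prime → 5 ≤ p → p ∣ x → p ∣ q)
    (hy : ∀ p : ℕ, p.Prime → 5 ≤ p → p ∣ y → p ∣ q)
    (hw : ∀ p : ℕ, p.Prime → 5 ≤ p → p ∣ w → p ∣ q)
    (hxy : ∀ p : ℕ, p.Prime → 5 ≤ p → p ∣ x → ¬ p ∣ y)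
    (hxw : ∀ p : ℕ, p.Prime → 5 ≤ p → p ∣ x → ¬ p ∣ w)
    (hyw : ∀ p : ℕ, p.Prime → 5 ≤ p → p ∣ y → ¬ p ∣ w) :
    rad5 x * rad5 y * rad5 w ≤ q := by
  unfold rad5
  have d1 : Disjoint (x.primeFactors.filter (fun p => 5 ≤ p)) (y.primeFactors.filter (fun p => 5 ≤ p)) := by
    rw [Finset.disjoint_left]
    intro p hp hp'
    rw [mem_filter] at hp hp'
    exact hxy p (Nat.prime_of_mem_primeFactors hp.1) hp.2 (Nat.dvd_of_mem_primeFactors hp.1)
      (Nat.dvd_of_mem_primeFactors hp'.1)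
  have d2 : Disjoint (x.primeFactors.filter (fun p => 5 ≤ p) ∪ y.primeFactors.filter (fun p => 5 ≤ p))
      (w.primeFactors.filter (fun p => 5 ≤ p)) := by
    rw [Finset.disjoint_left]
    intro p hp hp'
    rw [mem_filter] at hp'
    rw [mem_union, mem_filter, mem_filter] at hp
    rcases hp with hp | hp
    · exact hxw p (Nat.prime_of_mem_primeFactors hp.1) hp.2 (Nat.dvd_of_mem_primeFactors hp.1)
        (Nat.dvd_of_mem_primeFactors hp'.1)
    · exact hyw p (Nat.prime_of_mem_primeFactors hp.1) hp.2 (Nat.dvd_of_mem_primeFactors hp.1)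
        (Nat.dvd_of_mem_primeFactors hp'.1)
  rw [← Finset.prod_union d1, ← Finset.prod_union d2]
  apply Nat.le_of_dvd (Nat.pos_of_ne_zero hq)
  refine dvd_trans (Finset.prod_dvd_prod_of_subset _ q.primeFactors _ ?_) (Nat.prod_primeFactors_dvd q)
  intro p hp
  rw [mem_union, mem_union, mem_filter, mem_filter, mem_filter] at hp
  rw [Nat.mem_primeFactors]
  rcases hp with (hp | hp) | hp
  · exact ⟨Nat.prime_of_mem_primeFactors hp.1, hx p (Nat.prime_of_mem_primeFactors hp.1) hp.2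
      (Nat.dvd_of_mem_primeFactors hp.1), hq⟩
  · exact ⟨Nat.prime_of_mem_primeFactors hp.1, hy p (Nat.prime_of_mem_primeFactors hp.1) hp.2
      (Nat.dvd_of_mem_primeFactors hp.1), hq⟩
  · exact ⟨Nat.prime_of_mem_primeFactors hp.1, hw p (Nat.prime_of_mem_primeFactors hp.1) hp.2
      (Nat.dvd_of_mem_primeFactors hp.1), hq⟩

/-- the three radicals of a solution -/
lemma sol_rad {q x u : ℕ} (h : Sol q x (x + (u + 1))) (hq : 3 ≤ q) :
    rad5 x * rad5 (x + (u + 1)) * rad5 (u + 1) ≤ q := by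
  have hpq : ∀ p : ℕ, p.Prime → 5 ≤ p → p ∣ 2 * q → p ∣ q := by
    intro p hp hp5 hd
    rcases (Nat.Prime.dvd_mul hp).1 hd with h' | h'
    · have := (Nat.prime_dvd_prime_iff_eq hp Nat.prime_two).1 h'
      omega
    · exact h'
  have hx : ∀ p : ℕ, p.Prime → 5 ≤ p → p ∣ x → p ∣ q := fun p hp hp5 hd =>
    hpq p hp hp5 (h.smooth p hp (hd.mul_right _))
  have hy : ∀ p : ℕ, p.Prime → 5 ≤ p → p ∣ x + (u + 1) → p ∣ q := fun p hp hp5 hd =>
    hpq p hp hp5 (h.smooth p hp (hd.mul_left _))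
  have hxy : ∀ p : ℕ, p.Prime → 5 ≤ p → p ∣ x → ¬ p ∣ x + (u + 1) := fun p hp hp5 hd =>
    h.not_both hp (by omega) (by omega) (hx p hp hp5 hd) hd
  apply rad5_prod_le (by omega) hx hy
  · intro p hp hp5 hd
    apply h.wsm p hp (by omega)
    have : (p : ℤ) ∣ ((u + 1 : ℕ) : ℤ) := Int.natCast_dvd_natCast.2 hd
    have e : ((x + (u + 1) : ℕ) : ℤ) - x = ((u + 1 : ℕ) : ℤ) := by push_cast; ring
    rw [e]; exact this
  · exact hxy
  · intro p hp hp5 hd hd'
    exact hxy p hp hp5 hd ((Nat.dvd_add_right hd).2 hd')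
  · intro p hp hp5 hd hd'
    exact hxy p hp hp5 ((Nat.dvd_add_left hd').1 hd) hd

lemma one_small {q a b c : ℕ} (h : a * b * c ≤ q) : a ^ 3 ≤ q ∨ b ^ 3 ≤ q ∨ c ^ 3 ≤ q := by
  by_contra hcon
  push Not at hcon
  obtain ⟨h1, h2, h3⟩ := hcon
  have h4 : (a * b * c) ^ 3 ≤ q ^ 3 := Nat.pow_le_pow_left h 3
  have h5 : q * q * q < a ^ 3 * b ^ 3 * c ^ 3 := by
    apply Nat.mul_lt_mul'' (Nat.mul_lt_mul'' h1 h2) h3
  have e1 : (a * b * c) ^ 3 = a ^ 3 * b ^ 3 * c ^ 3 := by ring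
  have e2 : q ^ 3 = q * q * q := by ring
  omega

/-- the length -/
def nn (q s : ℕ) : ℕ := (q * s + q - 4) / (2 * (q - 1))

def f1 (v u : ℕ) : ℕ × ℕ := ((4 * v + 2 * u - 4) / (u * (u + 2)), nn ((4 * v + 2 * u - 4) / (u * (u + 2))) (2 * v + u + 1))

def f2 (v u : ℕ) : ℕ × ℕ := ((4 * v - 2 * u - 8) / (u * (u + 2)), nn ((4 * v - 2 * u - 8) / (u * (u + 2))) (2 * v - u - 1))

def f3 (v d : ℕ) : ℕ × ℕ := (d + 1, nn (d + 1) (((d + 1) * (v ^ 2 - 1) + 6) / 2))

lemma nn_eq {q n s : ℕ} (hq : 3 ≤ q) (h : 2 * n * (q - 1) + 4 = q * s + q) : nn q s = n := by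
  unfold nn
  apply Nat.div_eq_of_eq_mul_right (by omega)
  have : 2 * (q - 1) * n = 2 * n * (q - 1) := by ring
  omega

/-- the numbers with small radical -/
noncomputable def V (N : ℕ) (R : ℝ) : Finset ℕ := (Icc 1 N).filter fun d => (rad d : ℝ) ≤ R

noncomputable def G (N : ℕ) (R : ℝ) : Finset (ℕ × ℕ) :=
  (V N R).biUnion (fun v => (4 * (v - 1)).divisors.image (f1 v)) ∪
  ((V N R).biUnion (fun v => (4 * (v - 2)).divisors.image (f2 v)) ∪
   (V N R).biUnion (fun v => (v ^ 2 - 1).divisors.image (f3 v)))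

lemma mem_G {q n x y N : ℕ} {R : ℝ} (h : Sol q x y) (hq : 3 ≤ q) (hyn : y ≤ n) (hnN : n ≤ N)
    (hn : 2 * n * (q - 1) + 4 = q * (x + y) + q) (hR : ∀ r : ℕ, r ^ 3 ≤ q → 6 * (r : ℝ) ≤ R) :
    (q, n) ∈ G N R := by
  have hx3 := h.x_ge hq
  have hw2 := h.w2
  obtain ⟨u, rfl⟩ : ∃ u, y = x + (u + 1) := ⟨y - x - 1, by omega⟩
  have hu : 1 ≤ u := by omega
  have heq : q * (u * (u + 2)) + 4 = 4 * x + 2 * u := by
    have := h.eq
    zify
    push_cast at this
    linear_combination this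
  have hsm : ∀ v : ℕ, rad5 v ^ 3 ≤ q → 1 ≤ v → v ≤ N → v ∈ V N R := by
    intro v hv h1 h2
    rw [V, mem_filter, mem_Icc]
    refine ⟨⟨h1, h2⟩, le_trans ?_ (hR _ hv)⟩
    have := rad_le v
    exact_mod_cast this
  have hnn := nn_eq hq hn
  have hpos : 0 < u * (u + 2) := by positivity
  rw [G, mem_union, mem_union]
  rcases one_small (sol_rad h hq) with h1 | h1 | h1
  · left
    rw [mem_biUnion]
    refine ⟨x, hsm x h1 (by omega) (by omega), ?_⟩
    rw [mem_image]
    refine ⟨u, ?_, ?_⟩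
    · rw [Nat.mem_divisors]
      refine ⟨?_, by omega⟩
      have h2 : (u : ℤ) ∣ ((4 * (x - 1) : ℕ) : ℤ) := by
        refine ⟨(q : ℤ) * (u + 2) - 2, ?_⟩
        have : (q : ℤ) * (u * (u + 2)) + 4 = 4 * x + 2 * u := by exact_mod_cast heq
        push_cast [Nat.cast_sub (show 1 ≤ x by omega)]
        linear_combination -this
      exact_mod_cast h2
    · have e1 : (4 * x + 2 * u - 4) / (u * (u + 2)) = q := by
        apply Nat.div_eq_of_eq_mul_left hpos
        omega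
      rw [f1, e1]
      have e2 : 2 * x + u + 1 = x + (x + (u + 1)) := by ring
      rw [e2, hnn]
  · right; left
    rw [mem_biUnion]
    refine ⟨x + (u + 1), hsm _ h1 (by omega) (by omega), ?_⟩
    rw [mem_image]
    refine ⟨u, ?_, ?_⟩
    · rw [Nat.mem_divisors]
      refine ⟨?_, by omega⟩
      have h2 : (u : ℤ) ∣ ((4 * (x + (u + 1) - 2) : ℕ) : ℤ) := by
        refine ⟨(q : ℤ) * (u + 2) + 2, ?_⟩
        have : (q : ℤ) * (u * (u + 2)) + 4 = 4 * x + 2 * u := by exact_mod_cast heq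
        push_cast [Nat.cast_sub (show 2 ≤ x + (u + 1) by omega)]
        linear_combination -this
      exact_mod_cast h2
    · have e1 : (4 * (x + (u + 1)) - 2 * u - 8) / (u * (u + 2)) = q := by
        apply Nat.div_eq_of_eq_mul_left hpos
        omega
      rw [f2, e1]
      have e2 : 2 * (x + (u + 1)) - u - 1 = x + (x + (u + 1)) := by omega
      rw [e2, hnn]
  · right; right
    rw [mem_biUnion]
    refine ⟨u + 1, hsm _ h1 (by omega) (by omega), ?_⟩
    rw [mem_image]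
    have e0 : (u + 1) ^ 2 - 1 = u * (u + 2) := by
      have : (u + 1) ^ 2 = u * (u + 2) + 1 := by ring
      omega
    refine ⟨q - 1, ?_, ?_⟩
    · rw [Nat.mem_divisors]
      refine ⟨?_, by omega⟩
      have h2 := h.dvd
      have h3 : ((q - 1 : ℕ) : ℤ) ∣ (((u + 1) ^ 2 - 1 : ℕ) : ℤ) := by
        rw [e0]
        push_cast [Nat.cast_sub (show 1 ≤ q by omega)] at h2 ⊢
        convert h2 using 1
        ring
      exact_mod_cast h3
    · rw [f3, show q - 1 + 1 = q by omega, e0]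
      have e2 : (q * (u * (u + 2)) + 6) / 2 = x + (x + (u + 1)) := by omega
      rw [e2, hnn]

end Pool.Agent.W2helper16.PP
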