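import Pool.Agent.TH500.PC.Sol

/-!
The Diophantine consequences of the existence of a perfect 2-error-correcting code, with the length.
-/

set_option autoImplicit false

namespace Pool.Agent.W2helper16.PP

open Pool.Agent.TH500.PC

/-- A perfect 2-error-correcting code of length `n` with at least two words yields a solution with `y ≤ n`
which determines `n`. (Variant of `sol_of_code`, same proof, which records the length.) -/
theorem sol_of_code {α : Type} [Fintype α] [DecidableEq α] {n : ℕ} {C : Finset (Fin n → α)}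
    (hC : Perfect2 C) (hq : 2 ≤ Fintype.card α) (hcard : 2 ≤ C.card) :
    ∃ x y : ℕ, Sol (Fintype.card α) x y ∧ y ≤ n ∧
      2 * n * (Fintype.card α - 1) + 4 = Fintype.card α * (x + y) + Fintype.card α := by
  obtain ⟨m₁, m₂, hlt, hm2, hn, h1, h2, h3⟩ := lloyd hC hq hcard
  have hd := three_dvd hC hq hcard
  have hnew := fun ℓ hℓ hℓ2 hdd => @dvd_card_of_dvd_sub α _ _ n C hC hq hcard hn m₁ m₂ h1
    (by
      have : (((Fintype.card α) ^ 2 * (m₁ * m₂) : ℕ) : ℤ) = (((n - 1) * (n - 2) : ℕ) : ℤ) := by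
        exact_mod_cast h2
      push_cast [Nat.cast_sub (show 1 ≤ n by omega), Nat.cast_sub (show 2 ≤ n by omega)] at this
      exact this) ℓ hℓ hℓ2 hdd
  set q := Fintype.card α with hqdef
  have hq0 : (q : ℤ) ≠ 0 := by
    have : (2 : ℤ) ≤ q := by exact_mod_cast hq
    intro h; linarith
  have e1 : (q : ℤ) * (m₁ + m₂) + 4 = 2 * n + q := by exact_mod_cast h1
  have e2 : (q : ℤ) ^ 2 * (m₁ * m₂) = ((n : ℤ) - 1) * (n - 2) := by
    have : (((q : ℕ) ^ 2 * (m₁ * m₂) : ℕ) : ℤ) = (((n - 1) * (n - 2) : ℕ) : ℤ) := by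
      exact_mod_cast h2
    push_cast [Nat.cast_sub (show 1 ≤ n by omega), Nat.cast_sub (show 2 ≤ n by omega)] at this
    exact this
  have hx : ((n - m₂ : ℕ) : ℤ) = n - m₂ := by
    rw [Nat.cast_sub (by omega)]
  have hy : ((n - m₁ : ℕ) : ℤ) = n - m₁ := by
    rw [Nat.cast_sub (by omega)]
  have e4 : 4 * (q : ℤ) * (m₁ * m₂) = (q * (m₁ + m₂) + 2 - q) * (m₁ + m₂ - 1) := by
    have : (q : ℤ) * (4 * (q : ℤ) * (m₁ * m₂)) =
        (q : ℤ) * ((q * (m₁ + m₂) + 2 - q) * (m₁ + m₂ - 1)) := by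
      have h4 : 2 * (n : ℤ) = q * (m₁ + m₂) + 4 - q := by linarith
      have h5 : 4 * ((q : ℤ) ^ 2 * (m₁ * m₂)) = (2 * (n : ℤ) - 2) * (2 * n - 4) := by
        rw [e2]; ring
      rw [h4] at h5
      linear_combination h5
    exact mul_left_cancel₀ hq0 this
  have hw : (q : ℤ) * (((m₂ : ℤ) - m₁) ^ 2 - 1) = 2 * (q - 1) * (m₁ + m₂ - 1) := by
    linear_combination (-1 : ℤ) * e4
  have heq : (q : ℤ) * ((((n - m₁ : ℕ) : ℤ) - ((n - m₂ : ℕ) : ℤ)) ^ 2 - 1) =
      2 * (((n - m₂ : ℕ) : ℤ) + ((n - m₁ : ℕ) : ℤ)) - 6 := by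
    rw [hx, hy]
    have : ((n : ℤ) - m₁ - (n - m₂)) = m₂ - m₁ := by ring
    rw [this, hw]
    linear_combination 2 * e1
  refine ⟨n - m₂, n - m₁, ⟨?_, heq, ?_, ?_, ?_, by omega, ?_⟩, by omega, ?_⟩
  · by_contra hcon
    have hm : m₂ = m₁ + 1 := by omega
    rw [hm] at hw
    push_cast at hw
    have h0 : 2 * ((q : ℤ) - 1) * (m₁ + (m₁ + 1) - 1) = 0 := by
      rw [← hw]; ring
    have hq1 : (q : ℤ) - 1 ≠ 0 := by
      have : (2 : ℤ) ≤ q := by exact_mod_cast hq
      intro h; linarith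
    have hm0 : (m₁ : ℤ) = 0 := by
      rcases mul_eq_zero.1 h0 with h | h
      · rcases mul_eq_zero.1 h with h | h
        · norm_num at h
        · exact absurd h hq1
      · linarith
    rw [hm] at e1
    push_cast at e1
    rw [hm0] at e1
    have : (n : ℤ) = 2 := by linarith
    have : n = 2 := by exact_mod_cast this
    omega
  · rw [hx, hy]
    have : ((n : ℤ) - m₁ - (n - m₂)) = m₂ - m₁ := by ring
    rw [this]
    have hcop : IsCoprime ((q : ℤ) - 1) (q : ℤ) := ⟨-1, 1, by ring⟩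
    apply hcop.dvd_of_dvd_mul_left
    rw [hw]
    exact ⟨2 * (m₁ + m₂ - 1), by ring⟩
  · intro p hp hpd
    have h6 : p ∣ 2 * q ^ n := by
      rw [← h3]
      have : (q ^ 2 * ((n - m₁) * (n - m₂)) * C.card) = ((n - m₂) * (n - m₁)) * (q ^ 2 * C.card) := by
        ring
      rw [this]
      exact hpd.mul_right _
    rcases (Nat.Prime.dvd_mul hp).1 h6 with h | h
    · exact h.mul_right _
    · exact (hp.dvd_of_dvd_pow h).mul_left _
  · rw [hx, hy]
    have : ((n : ℤ) - m₁ - (n - m₂)) = m₂ - m₁ := by ring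
    rw [this]
    have h7 : (3 : ℤ) ∣ ((n : ℤ) - 2) * (q - 1) := by
      have := Int.natCast_dvd_natCast.2 hd
      push_cast [Nat.cast_sub (show 2 ≤ n by omega), Nat.cast_sub (show 1 ≤ q by omega)] at this
      exact this
    have h8 : (q : ℤ) * ((q : ℤ) * (((m₂ : ℤ) - m₁) ^ 2 - 1)) = 4 * (((n : ℤ) - 2) * (q - 1)) := by
      rw [hw]
      linear_combination 2 * ((q : ℤ) - 1) * e1
    have h9 : (3 : ℤ) ∣ (q : ℤ) * ((q : ℤ) * (((m₂ : ℤ) - m₁) ^ 2 - 1)) := by
      rw [h8]; exact h7.mul_left _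
    have hp3 : Prime (3 : ℤ) := Int.prime_three
    rcases hp3.dvd_or_dvd h9 with h | h
    · exact h.mul_right _
    · exact h
  · intro p hp hp2 hpd
    haveI : Fact p.Prime := ⟨hp⟩
    apply hnew p ⟨hp⟩ hp2
    rw [hx, hy] at hpd
    have h' := (ZMod.intCast_zmod_eq_zero_iff_dvd _ p).2 hpd
    push_cast at h'
    linear_combination (-1) * h'
  · zify [show m₁ ≤ n by omega, show m₂ ≤ n by omega, show 1 ≤ q by omega]
    linear_combination e1

end Pool.Agent.W2helper16.PP
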